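import Pool.Agent.H124.MonCover.Action

/-!
# Least regular polytopal covers force string C-group monodromy

The answer to Q1 of `MP_159c4a_co` is no, in every rank and also for infinite polytopes (the negated
form in the problem file). All definitions are in `Pool.Agent.H124.MonCover.Defs` and follow the
problem file word by word:

* `AbstractPolytope n P`: an abstract `n`-polytope with face poset `P` (rank function onto
  `{-1, ..., n}`, least and greatest face, flags with `n + 2` faces, strong flag-connectedness,
  diamond condition). A polytope of finite rank has at most countably many faces, so `P : Type` is
  no restriction.
* `X.Adj i Φ Ψ`: `Ψ = Φ^i`, the flags differ exactly in their faces of rank `i`.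
* `IsCovering X Y φ`: `φ` is a surjection preserving order and rank with `(Φ^i) φ = (Φ φ)^i`.
* `IsLeastRegularCover Y X`: `Y` is a regular polytope covering `X`, and every regular polytope
  covering `X` covers `Y`.
* `GeneratesStringC ρ`: the group generated by the `ρ i` is a string C-group with these
  distinguished generators.

In the statement `ρ i` is the permutation `Φ ↦ Φ^i` of the flags (its existence and uniqueness are
part of the conclusion), so the `ρ i` are the distinguished generators of the monodromy group.

Idea of the proof. Let `K` be the kernel of the action of the free group (equivalently, of the
universal string Coxeter group) on the flags. For every prime `p` we construct a normal subgroup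
`M ≤ K` with `K / M` a `p`-group and string C-group quotient: repeatedly pass to the kernel of the
cocycle that counts modulo `p` the signed crossings of a closed path with the oriented hyperplanes
of a given label. A least regular polytopal cover would correspond to a normal subgroup containing
these subgroups `M` for `p = 2` and for `p = 3`, hence all of `K`.
-/

open Pool.Agent.H124.MonCover

/-- For every abstract `n`-polytope `X` the flag exchanges `Φ ↦ Φ^i` are well defined permutations
`ρ 0, ..., ρ (n-1)` of the flags, and if the monodromy group which they generate is not a string
C-group, then there is no regular polytope which covers `X` and is covered by every regular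
polytope covering `X`. -/
theorem Pool.Agent.Results.MP_159c4a_co.NoLeastRegularCover.result (n : ℕ) (P : Type)
    [PartialOrder P] (X : AbstractPolytope n P) :
    ∃ ρ : Fin n → Equiv.Perm (Flag P),
      (∀ (i : Fin n) (Φ Ψ : Flag P), X.Adj i Φ Ψ ↔ ρ i Φ = Ψ) ∧
      (¬ GeneratesStringC ρ →
        ¬ ∃ (Q : Type) (_ : PartialOrder Q) (Y : AbstractPolytope n Q),
          IsLeastRegularCover Y X) := by
  refine ⟨X.flip, ?_, no_least_cover X⟩
  intro i Φ Ψ
  constructor
  · exact fun h => X.nbr_eq h
  · rintro rfl
    exact X.adj_nbr i Φ
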